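import Mathlib
import Pool.Agent.ExtGap.Main

set_option autoImplicit false
open CategoryTheory

namespace Pool.Agent.Results.MP_77ea4f_al.ABUnboundedGap

open Pool.Agent.ExtGap

theorem exists_field' (m : ℕ) (hm : m ≠ 0) : ∃ (F : Type) (_ : Field F) (_ : Algebra (ZMod 2) F)
    (_ : Finite F) (_ : CharP F 2) (β : F), β ≠ 0 ∧ orderOf β = 2 ^ m - 1 := by
  have hfin : Finite (GaloisField 2 m) := inferInstance
  refine ⟨GaloisField 2 m, inferInstance, inferInstance, hfin, inferInstance, ?_⟩
  obtain ⟨g, hg⟩ := IsCyclic.exists_generator (α := (GaloisField 2 m)ˣ)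
  have h1 : orderOf g = Nat.card (GaloisField 2 m)ˣ :=
    orderOf_eq_card_of_forall_mem_zpowers hg
  have h2 : Nat.card (GaloisField 2 m) = 2 ^ m := GaloisField.card 2 m hm
  refine ⟨g, g.ne_zero, ?_⟩
  rw [orderOf_units, h1, Nat.card_units, h2]

theorem gaps' (m : ℕ) (hm : 2 ≤ m) : ∃ M N : ModuleCat.{0} R₀,
    Module.Finite R₀ M ∧ Module.Finite R₀ N ∧
      Nontrivial (Abelian.Ext M N 1 : Type) ∧
      Nontrivial (Abelian.Ext M N (2 ^ m - 1) : Type) ∧
      (∀ i : ℕ, 1 < i → i < 2 ^ m - 1 → Subsingleton (Abelian.Ext M N i : Type)) := by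
  obtain ⟨F, _, _, _, _, β, hβ, hord⟩ := exists_field' m (by omega)
  have hpow : 4 ≤ 2 ^ m := by
    calc 4 = 2 ^ 2 := by norm_num
      _ ≤ 2 ^ m := Nat.pow_le_pow_right (by norm_num) hm
  have hP : Finite (P F) := by
    unfold P
    infer_instance
  have hQ : Finite (Qt β (1 : F)) := Quotient.finite _
  refine ⟨ModuleCat.of R₀ (Qt β (1 : F)), ModuleCat.of R₀ Nθ, Module.Finite.of_finite,
    Module.Finite.of_finite, ?_, ?_, ?_⟩
  · rw [← not_subsingleton_iff_nontrivial]
    intro h
    have := (EV_iff β (1 : F) hβ 0).mp h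
    simp at this
  · rw [← not_subsingleton_iff_nontrivial]
    intro h
    rw [← hord] at h
    have e : orderOf β = (orderOf β - 1) + 1 := by omega
    rw [e] at h
    have := ((EV_iff β (1 : F) hβ (orderOf β - 1)).mp h).2
    rw [show orderOf β - 1 + 1 = orderOf β by omega, pow_orderOf_eq_one] at this
    simp at this
  · intro i h1 h2
    obtain ⟨j, rfl⟩ : ∃ j, i = j + 1 := ⟨i - 1, by omega⟩
    refine (EV_iff β (1 : F) hβ j).mpr ⟨?_, ?_⟩
    · rw [mul_one]
      exact pow_ne_one_of_lt_orderOf (by omega) (by omega)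
    · rw [mul_one]
      exact pow_ne_one_of_lt_orderOf (by omega) (by omega)

/-- A finite self-injective commutative local ring with 4096 elements satisfies the uniform
Auslander condition with bound one, and its extension groups have gaps of length `2 ^ m - 3` for
every `m ≥ 2`. -/
theorem result : ∃ (R : Type) (_ : CommRing R) (_ : IsLocalRing R),
    Nat.card R = 4096 ∧ Module.Injective R R ∧
    (∀ M N : ModuleCat.{0} R, Module.Finite R M → Module.Finite R N →
      (∃ n : ℕ, ∀ i : ℕ, n ≤ i → Subsingleton (Abelian.Ext M N i : Type)) →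
      ∀ i : ℕ, 1 ≤ i → Subsingleton (Abelian.Ext M N i : Type)) ∧
    (∀ m : ℕ, 2 ≤ m → ∃ M N : ModuleCat.{0} R, Module.Finite R M ∧ Module.Finite R N ∧
      Nontrivial (Abelian.Ext M N 1 : Type) ∧
      Nontrivial (Abelian.Ext M N (2 ^ m - 1) : Type) ∧
      (∀ i : ℕ, 1 < i → i < 2 ^ m - 1 → Subsingleton (Abelian.Ext M N i : Type))) := by
  refine ⟨R₀, inferInstance, inferInstance, ?_, inferInstance,
    fun M N hM hN hex i hi => uac M N hM hN hex i hi, gaps'⟩
  have : Nat.card (Fin 12 → ZMod 2) = 4096 := by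
    simp [Nat.card_eq_fintype_card]
  exact this

end Pool.Agent.Results.MP_77ea4f_al.ABUnboundedGap
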